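import Pool.Agent.H654R5.PT.Stm

/-! Task PIR (helper457): the list of irreducible polynomials in polynomial time. -/

namespace Pool.Agent.H654R5.PT.PIR

open Pool.Agent.NPC Pool.Agent.H654R5.PT

theorem poly_two_pow {α : Type} [TEnc α] {j : α → ℕ} (hj : UPoly j) :
    NPC.Poly (fun a => 2 ^ j a) := by
  have h1 : NPC.Poly (fun a => List.replicate (j a) false) :=
    (NPC.Poly.map hj (F := fun _ _ => false) (NPC.Poly.const false)).congr fun a => by simp
  have h2 : NPC.Poly (fun a => valB (List.replicate (j a) false ++ [true])) :=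
    NPC.Poly.valBits (NPC.Poly.append h1 (NPC.Poly.const [true]))
  refine h2.congr fun a => ?_
  rw [valB_replicate_false]
  simp

/-- the minimum of a number with a logarithmic parameter -/
theorem logPar_min {α : Type} [TEnc α] {c : α → ℕ} (hc : LogPar c) {β : Type} [TEnc β] (f : β → α)
    (hf : NPC.Poly f) (d : β → ℕ) (hd : NPC.Poly d) : LogPar (fun b => min (d b) (c (f b))) := by
  have h1 : UPoly (fun b => min (d b) (c (f b))) :=
    UPoly.of_le (NPC.Poly.min hd ((hc.1.comp hf).toPoly)) (hc.1.comp hf) (fun b => min_le_right _ _)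
  refine ⟨h1, UPoly.of_le (poly_two_pow h1) (hc.2.comp hf) (fun b => ?_)⟩
  exact Nat.pow_le_pow_right (by norm_num) (min_le_right _ _)

theorem poly_replicate {α : Type} [TEnc α] {j : α → ℕ} (hj : UPoly j) :
    NPC.Poly (fun a => List.replicate (j a) false) :=
  (NPC.Poly.map hj (F := fun _ _ => false) (NPC.Poly.const false)).congr fun a => by simp

theorem poly_monics (hPST : S_PST) {α : Type} [TEnc α] {k : α → ℕ} (hk : LogPar k) :
    NPC.Poly (fun a => monics (k a)) :=
  NPC.Poly.map (F := fun _ s => s ++ [true]) (hPST k hk)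
    (NPC.Poly.append (NPC.Poly.snd NPC.Poly.id) (NPC.Poly.const [true]))

/-- the bounded irreducibility test -/
def tst (c : ℕ) (h : List Bool) : Bool :=
  (List.range (h.tail.length)).all (fun d => d == 0 || (monics (min d c)).all (fun k =>
    decide (pmod k h ≠ List.replicate (min d c) false)))

theorem poly_tst (hPST : S_PST) (hPMO : S_PMO) {α : Type} [TEnc α] {c : α → ℕ} (hc : LogPar c) :
    NPC.Poly (fun q : α × List Bool => tst (c q.1) q.2) := by
  unfold tst
  apply NPC.Poly.all (l := fun q : α × List Bool => List.range q.2.tail.length)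
    (p := fun (q : α × List Bool) d => d == 0 || (monics (min d (c q.1))).all (fun k =>
      decide (pmod k q.2 ≠ List.replicate (min d (c q.1)) false)))
  · exact NPC.Poly.range_length (NPC.Poly.tail (NPC.Poly.snd NPC.Poly.id))
  · have hmin : LogPar (fun r : (α × List Bool) × ℕ => min r.2 (c r.1.1)) :=
      logPar_min hc (fun r : (α × List Bool) × ℕ => r.1.1) (NPC.Poly.fst (NPC.Poly.fst NPC.Poly.id)) _
        (NPC.Poly.snd NPC.Poly.id)
    apply NPC.Poly.or
    · exact (NPC.Poly.decide_eq (NPC.Poly.snd NPC.Poly.id) (NPC.Poly.const 0)).congr fun r => by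
        simp [beq_eq_decide]
    · apply NPC.Poly.all (l := fun r : (α × List Bool) × ℕ => monics (min r.2 (c r.1.1)))
        (p := fun (r : (α × List Bool) × ℕ) k =>
          decide (pmod k r.1.2 ≠ List.replicate (min r.2 (c r.1.1)) false))
      · exact poly_monics hPST hmin
      · apply NPC.Poly.decide_not
        apply NPC.Poly.decide_eq
        · exact hPMO (fun t : ((α × List Bool) × ℕ) × List Bool => t.2)
            (fun t : ((α × List Bool) × ℕ) × List Bool => t.1.1.2) (NPC.Poly.snd NPC.Poly.id)
            (NPC.Poly.snd (NPC.Poly.fst (NPC.Poly.fst NPC.Poly.id)))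
        · exact poly_replicate (hmin.1.comp (NPC.Poly.fst NPC.Poly.id))

theorem PIR_proof (hSTR : S_STR) (hPST : S_PST) (hPMO : S_PMO) : S_PIR := by
  intro α _ c hc
  have h1 : NPC.Poly (fun a => (List.range (c a + 1)).flatMap
      (fun d => if d = 0 then [] else monics (min d (c a)))) := by
    apply NPC.Poly.flatMap (l := fun a => List.range (c a + 1))
      (F := fun a d => if d = 0 then [] else monics (min d (c a)))
    · exact (hc.1.add (UPoly.const 1)).range
    · apply NPC.Poly.ite
      · exact NPC.Poly.decide_eq (NPC.Poly.snd NPC.Poly.id) (NPC.Poly.const 0)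
      · exact NPC.Poly.const []
      · exact poly_monics hPST (logPar_min hc (fun r : α × ℕ => r.1) (NPC.Poly.fst NPC.Poly.id) _
          (NPC.Poly.snd NPC.Poly.id))
  have h2 := NPC.Poly.filter (p := fun a h => tst (c a) h) h1 (poly_tst hPST hPMO hc)
  refine h2.congr fun a => ?_
  unfold irrs
  have e1 : (List.range (c a + 1)).flatMap (fun d => if d = 0 then [] else monics (min d (c a))) =
      (List.range (c a + 1)).flatMap (fun d => if d = 0 then [] else monics d) := by
    apply List.flatMap_congr
    intro d hd
    have : d ≤ c a := Nat.lt_succ_iff.1 (List.mem_range.1 hd)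
    rw [min_eq_left this]
  rw [e1]
  apply List.filter_congr
  intro h hh
  rw [List.mem_flatMap] at hh
  obtain ⟨d, hd, hh⟩ := hh
  have hdc : d ≤ c a := Nat.lt_succ_iff.1 (List.mem_range.1 hd)
  split_ifs at hh with h0
  · simp at hh
  · unfold monics at hh
    rw [List.mem_map] at hh
    obtain ⟨s, hs, rfl⟩ := hh
    have hlen : s.length = d := (hSTR.1 d s).1 hs
    unfold tst irrT
    have e2 : (s ++ [true]).tail.length = (s ++ [true]).length - 1 := by simp
    rw [e2]
    apply Bool.eq_iff_iff.2
    rw [List.all_eq_true, List.all_eq_true]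
    apply forall₂_congr
    intro d' hd'
    have h3 : d' ≤ c a := by
      have := List.mem_range.1 hd'
      simp at this
      omega
    rw [min_eq_left h3]

end Pool.Agent.H654R5.PT.PIR
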